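import Pool.Agent.N328.GL.Main
import Pool.Agent.H126R2.CDC.Decomp

set_option autoImplicit false

/-!
# Circuit covers of the constant even weightings of almost all lifts (MP_20b97f_co)

Let `B` be a finite connected bridgeless multigraph in which every vertex has degree at least three.
An `N`-lift of `B` is given by a permutation of `{0, ..., N - 1}` for every edge. All but a
proportion `C N ^ (-1/10)` of the `N`-lifts have five even subgraphs covering every edge exactly
twice; hence the constant weighting `2`, and every constant even weighting, has a circuit cover.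
The lifts have the degrees of `B`; the base graph is arbitrary, for example the Petersen graph.
The circuit covers alone are not new: the starting result `NearConstant` has them for all bridgeless
graphs. New are the five even subgraphs.

The theorem is `Pool.Agent.N328.GL.five`. Vertices of degree at least four are split, which reduces
it to cubic graphs `B`. A 2-factor of `B` lifts to a 2-factor of the lift, which has few circuits for
most choices; most lifts are locally sparse and expanding, and an argument with joins (even
subgraphs through few far apart edges) gives the five even subgraphs. A circuit cover is obtained by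
decomposing the even subgraphs into circuits.
-/

namespace Pool.Agent.Results.MP_20b97f_co.AlmostAllLifts

open Finset
open Pool.Agent.H126R2.CDC (MGraph)

/-- The `N`-lift of the multigraph with vertices `V` and edges `E`, the edge `e` joining `t e` and
`h e`: its vertices are the pairs `(v, i)`, its edges the pairs `(e, i)`, and the edge `(e, i)`
joins `(t e, i)` and `(h e, p e i)`. -/
def liftGraph {V E : Type} (t h : E → V) {N : ℕ} (p : E → Equiv.Perm (Fin N)) :
    MGraph (V × Fin N) (E × Fin N) where
  ends x := s((t x.1, x.2), (h x.1, p x.1 x.2))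

/-- There are five even subgraphs such that every edge lies in exactly two of them. -/
def FiveEvenSubgraphs {V E : Type} [Fintype V] [DecidableEq V] [Fintype E] [DecidableEq E]
    (G : MGraph V E) : Prop :=
  ∃ C : Fin 5 → Finset E, (∀ i v, Even (G.deg (C i) v)) ∧
    ∀ e, (univ.filter fun i => e ∈ C i).card = 2

/-- `(G, p)` has a circuit cover: a multiset of circuits in which every edge `e` lies in exactly
`p e` members. -/
def HasCircuitCover {V E : Type} [Fintype V] [DecidableEq V] [Fintype E] [DecidableEq E]
    (G : MGraph V E) (p : E → ℕ) : Prop :=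
  ∃ F : Multiset (Finset E), (∀ C ∈ F, G.IsCircuit C) ∧ ∀ e, F.countP (fun C => e ∈ C) = p e

section
variable {V E : Type} [Fintype V] [DecidableEq V] [Fintype E] [DecidableEq E]

theorem deg_eq (t h : E → V) {N : ℕ} (p : E → Equiv.Perm (Fin N)) (F : Finset (E × Fin N))
    (v : V × Fin N) :
    (liftGraph t h p).deg F v =
      (Pool.Agent.N328.LF.lift (⟨t, h⟩ : Pool.Agent.H160R2.HF.OrGraph V E) p).deg F v := by
  unfold MGraph.deg Pool.Agent.H160R2.HF.OrGraph.deg
  rw [← card_union_add_card_inter (F.filter (fun e =>
    (Pool.Agent.N328.LF.lift (⟨t, h⟩ : Pool.Agent.H160R2.HF.OrGraph V E) p).t e = v))]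
  congr 1
  · congr 1
    ext x
    simp only [liftGraph, Pool.Agent.N328.LF.lift, mem_filter, mem_union, Sym2.mem_iff]
    constructor
    · rintro ⟨h1, h2 | h2⟩
      · exact Or.inl ⟨h1, h2.symm⟩
      · exact Or.inr ⟨h1, h2.symm⟩
    · rintro (⟨h1, h2⟩ | ⟨h1, h2⟩)
      · exact ⟨h1, Or.inl h2.symm⟩
      · exact ⟨h1, Or.inr h2.symm⟩
  · congr 1
    ext x
    simp only [liftGraph, Pool.Agent.N328.LF.lift, mem_filter, mem_inter, Sym2.eq_iff]
    constructor
    · rintro ⟨h1, ⟨h2, h3⟩ | ⟨h2, h3⟩⟩
      · exact ⟨⟨h1, h2⟩, ⟨h1, h3⟩⟩
      · exact ⟨⟨h1, h2⟩, ⟨h1, h3⟩⟩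
    · rintro ⟨⟨h1, h2⟩, ⟨_, h3⟩⟩
      exact ⟨h1, Or.inl ⟨h2, h3⟩⟩

theorem cover_of_five (G : MGraph V E) (hG : FiveEvenSubgraphs G) (r : ℕ) (hr : Even r) :
    HasCircuitCover G (fun _ => r) := by
  obtain ⟨C, hC1, hC2⟩ := hG
  obtain ⟨k, hk⟩ := hr
  choose F hF1 hF2 using fun i => G.decompose _ (C i) rfl (hC1 i)
  refine ⟨k • ∑ i, F i, ?_, ?_⟩
  · intro D hD
    have h1 := Multiset.mem_of_mem_nsmul hD
    obtain ⟨i, _, hi⟩ := Multiset.mem_sum.1 h1
    exact hF1 i D hi
  · intro e
    rw [Multiset.countP_nsmul]
    have h1 : (∑ i, F i).countP (fun D => e ∈ D) = 2 := by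
      rw [← hC2 e, card_filter]
      have h2 : ∀ s : Finset (Fin 5), (∑ i ∈ s, F i).countP (fun D => e ∈ D) =
          ∑ i ∈ s, (if e ∈ C i then 1 else 0) := by
        intro s
        induction s using Finset.induction_on with
        | empty => simp
        | insert a s ha ih => rw [sum_insert ha, sum_insert ha, Multiset.countP_add, ih, hF2]
      exact h2 univ
    rw [h1, hk]
    ring

end

/-- Let `B` be a finite multigraph with vertices `V` and edges `E`, the edge `e` joining `t e` and
`h e` (loops and parallel edges are allowed), such that every nonempty proper set of vertices is left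
by at least two edges and every vertex has degree at least three. There is a constant `C` such that
for all `N ≥ 1` the number of the choices of permutations `p e` of `Fin N`, `e` an edge, for which
the `N`-lift does not have five even subgraphs covering every edge exactly twice and circuit covers
of all its constant even weightings is at most `C N ^ (-1/10)` times the number `(N!) ^ |E|` of all
choices. -/
theorem result (V E : Type) [Fintype V] [DecidableEq V] [Fintype E] [DecidableEq E] (t h : E → V)
    (hcut : ∀ X : Finset V, X.Nonempty → X ≠ univ →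
      2 ≤ (univ.filter fun e => ¬ (t e ∈ X ↔ h e ∈ X)).card)
    (hdeg : ∀ v, 3 ≤ (univ.filter fun e => t e = v).card + (univ.filter fun e => h e = v).card) :
    ∃ C : ℝ, ∀ N : ℕ, 1 ≤ N →
      (({p : E → Equiv.Perm (Fin N) | ¬ (FiveEvenSubgraphs (liftGraph t h p) ∧
        ∀ r : ℕ, Even r → HasCircuitCover (liftGraph t h p) (fun _ => r))}.ncard : ℕ) : ℝ) ≤
        C * (N : ℝ) ^ (-(1 / 10) : ℝ) * ((N.factorial : ℝ) ^ Fintype.card E) := by
  let B : Pool.Agent.H160R2.HF.OrGraph V E := ⟨t, h⟩
  have hconn : Pool.Agent.N328.LF.Connected B := by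
    intro X hX hX'
    have h1 := hcut X hX (by
      rintro rfl
      simp at hX')
    rw [← card_pos]
    exact lt_of_lt_of_le (by norm_num) h1
  have hbr : B.Bridgeless := by
    apply Pool.Agent.N328.GL.bridgeless_of
    intro X hX
    rcases X.eq_empty_or_nonempty with h0 | h0
    · subst h0
      simp [Pool.Agent.H160R2.HF.OrGraph.cut] at hX
    · by_cases h1 : X = univ
      · subst h1
        simp [Pool.Agent.H160R2.HF.OrGraph.cut] at hX
      · have h2 := hcut X h0 h1
        have h3 : (univ.filter fun e => ¬ (t e ∈ X ↔ h e ∈ X)).card = 1 := hX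
        omega
  obtain ⟨C, hC⟩ := Pool.Agent.N328.GL.five V E B hconn hbr hdeg
  refine ⟨C, fun N hN => le_trans ?_ (hC N hN)⟩
  rw [Nat.cast_le]
  apply Set.ncard_le_ncard _ (Set.toFinite _)
  rintro p hp ⟨c, hc1, hc2⟩
  apply hp
  have h1 : FiveEvenSubgraphs (liftGraph t h p) :=
    ⟨c, fun i v => by rw [deg_eq]; exact hc1 i v, hc2⟩
  exact ⟨h1, fun r hr => cover_of_five _ h1 r hr⟩

end Pool.Agent.Results.MP_20b97f_co.AlmostAllLifts
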