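import Pool.Agent.U389.FR.Fin

set_option autoImplicit false

namespace Pool.Agent.Results.MP_20b97f_co.BoundedTreewidth

open Pool.Agent.H126R2.CDC (MGraph)

/-- The graph `G` (loops and parallel edges allowed) has a tree decomposition of width at most `k`:
a finite tree `T` and a set `bag x` of at most `k + 1` vertices for each node `x`, such that for
every vertex `w` the nodes `x` with `w ∈ bag x` induce a nonempty connected subgraph of `T`, and
the ends of every edge lie in a common bag. -/
def TreewidthAtMost {V E : Type} (G : MGraph V E) (k : ℕ) : Prop :=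
  ∃ (N : Type) (_ : Fintype N) (T : SimpleGraph N) (bag : N → Finset V), T.IsTree ∧
    (∀ w, (T.induce {x | w ∈ bag x}).Connected) ∧
    (∀ e, ∃ x, ∀ w ∈ G.ends e, w ∈ bag x) ∧ ∀ x, (bag x).card ≤ k + 1

/-- Circuit covers of weightings deep inside the cone of the circuits, for graphs of bounded
treewidth. Let `G` be a finite graph of treewidth at most `k`, where `k ≥ 1`, and let `p` be a
weighting (even or not, of any size) in the lattice of the circuits of `G`. If for some real number
`L ≥ 2 ^ (4 k + 5)` the vector `p - L` (the number `L` subtracted from every value) lies in the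
cone of the circuits, then `(G, p)` has a circuit cover. -/
theorem result (V E : Type) [Fintype V] [DecidableEq V] [Fintype E] [DecidableEq E]
    (G : MGraph V E) (k : ℕ) (hk : 1 ≤ k) (htw : TreewidthAtMost G k) (p : E → ℕ) (L : ℝ)
    (hL : (2 : ℝ) ^ (4 * k + 5) ≤ L)
    (hcone : ∃ w : Finset E → ℝ, (∀ C, 0 ≤ w C) ∧ (∀ C, ¬ G.IsCircuit C → w C = 0) ∧
      ∀ e, (p e : ℝ) - L = ∑ C : Finset E, w C * (if e ∈ C then 1 else 0))
    (hlat : (fun e => (p e : ℤ)) ∈ AddSubgroup.closure
      {x : E → ℤ | ∃ C, G.IsCircuit C ∧ x = fun e => if e ∈ C then 1 else 0}) :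
    ∃ F : Multiset (Finset E), (∀ C ∈ F, G.IsCircuit C) ∧
      ∀ e, F.countP (fun C => e ∈ C) = p e := by
  obtain ⟨N, _, T, bag, h1, h2, h3, h4⟩ := htw
  exact Pool.Agent.U389.FR.deep_tw G hk ⟨T, h1, bag, h2, h3, h4⟩ p hlat L hL hcone

end Pool.Agent.Results.MP_20b97f_co.BoundedTreewidth
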