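import Pool.Agent.U430.SN.Main

/-!
# Weight four on a perfect matching and two on the rest of a cubic graph

A cubic graph with a perfect matching is given by the set `B` of its matching edges and a permutation
`σ` of `B × Bool`: the vertices are the ends `(b, false)`, `(b, true)` of the matching edges `b`, and
the other edges join `v` to `σ v`; they form a `2`-factor, whose cycles are the cycles of `σ`.

Proof.  Let `K` be the skew-symmetric matrix of the graph with entries `± 1` at the matching edges and
`± x_e` at the edges `e` of the `2`-factor.  Its Pfaffian is a signed sum of the monomials of the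
perfect matchings, so every monomial of the power series `1 / det K = 1 / Pf(K)^2` is a product of
such monomials.  By Wick's formula `1 / det K` is the generating function of the moments of a
quadratic form, and its coefficient at `∏ x_e ^ 2` becomes a state sum over the colourings of the
`2`-factor with three colours (spin one on the `2`-factor, spin two on the matching).  Modulo
`3 ^ (k + 1)`, where `k` is the number of cycles of the `2`-factor, this state sum is
`3 ^ k * (-2) ^ |B|` times the alternating number of forests.
-/

set_option autoImplicit false

namespace Pool.Agent.Results.MP_20b97f_co.ForestNumber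

open Pool.Agent.H126R2.CDC (MGraph)

/-- The cubic graph with vertex set `B × Bool`: the edge `inl b` joins `(b, false)` to `(b, true)`,
these edges form a perfect matching; the edge `inr v` joins `v` to `σ v`. -/
def graph {B : Type} (σ : Equiv.Perm (B × Bool)) : MGraph (B × Bool) (B ⊕ B × Bool) :=
  ⟨Sum.elim (fun b => s((b, false), (b, true))) (fun v => s(v, σ v))⟩

/-- A set `A` of matching edges is a forest if it contains no cycle once every cycle of the
`2`-factor is contracted: for every nonempty `A' ⊆ A` some cycle of the `2`-factor (here the one
through `v`) contains exactly one end of the edges in `A'`. -/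
def IsForest {B : Type} (σ : Equiv.Perm (B × Bool)) (A : Finset B) : Prop :=
  ∀ A' ⊆ A, A'.Nonempty → ∃ v : B × Bool,
    Nat.card {w : B × Bool // w.1 ∈ A' ∧ σ.SameCycle v w} = 1

open Classical in
/-- Let `G` be a cubic graph with a perfect matching `M` whose complement is a `2`-factor `F`
(without loops).  If `3` does not divide the sum of `(-1) ^ |A|` over all `A ⊆ M` that are forests
of the graph `G / F`, then `G` has a family of circuits that covers every edge of `M` exactly four
times and every edge of `F` exactly twice. -/
theorem result (B : Type) [Fintype B] [DecidableEq B] (σ : Equiv.Perm (B × Bool))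
    (_hσ : ∀ v, σ v ≠ v)
    (hT : ¬ (3 : ℤ) ∣ ∑ A : Finset B, if IsForest σ A then (-1) ^ A.card else 0) :
    ∃ F : Multiset (Finset (B ⊕ B × Bool)), (∀ C ∈ F, (graph σ).IsCircuit C) ∧
      (∀ b : B, F.countP (fun C => Sum.inl b ∈ C) = 4) ∧
      ∀ v : B × Bool, F.countP (fun C => Sum.inr v ∈ C) = 2 :=
  Pool.Agent.U430.SN.cover_of_forests σ hT

end Pool.Agent.Results.MP_20b97f_co.ForestNumber
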