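import Pool.Agent.U389.SC.Main

set_option autoImplicit false

namespace Pool.Agent.Results.MP_20b97f_co.ShortCircuits

open Pool.Agent.H126R2.CDC (MGraph)

/-- The number `D`, the minimum of `ℓ`, of `3120 √ℓ + 832000 √X (1 + log ℓ)^{3/2}` and of
`42500 √ℓ X^{1/4}`, where `X = 1 + log N`. -/
noncomputable def D (ℓ N : ℕ) : ℝ :=
  min (ℓ : ℝ)
    (min (3120 * Real.sqrt ℓ + 832000 * Real.sqrt (1 + Real.log N) *
        (1 + Real.log ℓ) ^ (3 / 2 : ℝ))
      (42500 * Real.sqrt ℓ * (1 + Real.log N) ^ (1 / 4 : ℝ)))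

/-- Circuit covers of weightings which are the sum of a near-constant vector, of few bottleneck
vectors and of a fractional combination of circuits with few edges.

Let `G` be a finite graph and `R` a set of edges such that every edge lies on the same circuits as
some edge of `R`, for example the set of all edges. Let `p` be a weighting (even or not, of any
size) in the lattice of the circuits, and suppose that `p = r + x_1 + ... + x_K + ∑ w_C χ^C`, where

* `x_j ≥ 0` and every edge `e` with `x_j(e) > 0` lies on a circuit on which `x_j ≥ x_j(e)`;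
* `w_C ≥ 0`, and either `ℓ ≥ |V|` or every circuit `C` with `w_C > 0` has at most `ℓ` edges in `R`;
* `7 r(e) + 16 D + 14 K + 91 ≤ 9 r(f)` for any two edges `e`, `f`, where `D = D(ℓ, |R|)`.

Then `(G, p)` has a circuit cover. In particular (`K = 0` and `r` constant), `(G, p)` has a circuit
cover if `p - L` lies in the cone of the circuits for some real `L ≥ 8 D(|V|, |E|) + 46`. -/
theorem result (V E : Type) [Fintype V] [DecidableEq V] [Fintype E] [DecidableEq E]
    (G : MGraph V E) (R : Finset E)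
    (hR : ∀ e, ∃ f ∈ R, ∀ C, G.IsCircuit C → (e ∈ C ↔ f ∈ C)) (p : E → ℕ)
    (hlat : (fun e => (p e : ℤ)) ∈ AddSubgroup.closure
      {x : E → ℤ | ∃ C, G.IsCircuit C ∧ x = fun e => if e ∈ C then 1 else 0})
    (ℓ K : ℕ) (r : E → ℝ) (x : Fin K → E → ℝ) (w : Finset E → ℝ)
    (hp : ∀ e, (p e : ℝ) = r e + ∑ j, x j e + ∑ C : Finset E, w C * (if e ∈ C then 1 else 0))
    (hx0 : ∀ j e, 0 ≤ x j e)
    (hx : ∀ j e, 0 < x j e → ∃ C, G.IsCircuit C ∧ e ∈ C ∧ ∀ f ∈ C, x j e ≤ x j f)
    (hw0 : ∀ C, 0 ≤ w C) (hw : ∀ C, ¬ G.IsCircuit C → w C = 0)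
    (hℓ : Fintype.card V ≤ ℓ ∨ ∀ C, 0 < w C → (C ∩ R).card ≤ ℓ)
    (hr : ∀ e f, 7 * r e + 16 * D ℓ R.card + 14 * K + 91 ≤ 9 * r f) :
    ∃ F : Multiset (Finset E), (∀ C ∈ F, G.IsCircuit C) ∧
      ∀ e, F.countP (fun C => e ∈ C) = p e := by
  refine Pool.Agent.U389.SC.main G p hlat R hR ℓ K w hw0 ?_ x hx0 hx r hp hr
  intro C hC
  have h1 : G.IsCircuit C := by
    by_contra hcon
    exact hC (hw C hcon)
  refine ⟨h1, ?_⟩
  rcases hℓ with h | h
  · exact (Finset.card_le_card Finset.inter_subset_left).trans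
      ((Pool.Agent.U389.SC.circuit_card_le G C h1).trans h)
  · exact h C (lt_of_le_of_ne (hw0 C) (Ne.symm hC))

end Pool.Agent.Results.MP_20b97f_co.ShortCircuits
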